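import Pool.Agent.H6.FN.TargetsG

open scoped Classical

namespace FI

open MulAction

private lemma fac_big : ∀ c : ℕ, 3 ≤ c → 2 * 3 ^ (c - 1) * c.factorial < (3 * c - 3).factorial := by
  intro c hc
  induction c, hc using Nat.le_induction with
  | base => decide
  | succ c hc ih =>
    have e1 : 3 * (c + 1) - 3 = (3 * c - 3) + 3 := by omega
    have e2 : c + 1 - 1 = (c - 1) + 1 := by omega
    rw [e1, e2, Nat.factorial_succ, Nat.factorial_succ, Nat.factorial_succ, Nat.factorial_succ,
      pow_succ]
    have h3 : 3 * (c + 1) ≤ (3 * c - 3 + 2 + 1) * ((3 * c - 3 + 1 + 1) * (3 * c - 3 + 1)) := by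
      obtain ⟨d, rfl⟩ : ∃ d, c = d + 3 := ⟨c - 3, by omega⟩
      have : 3 * (d + 3) - 3 = 3 * d + 6 := by omega
      rw [this]
      nlinarith [Nat.zero_le d, Nat.zero_le (d*d), Nat.zero_le (d*d*d)]
    calc 2 * (3 ^ (c - 1) * 3) * ((c + 1) * c.factorial)
        = (3 * (c + 1)) * (2 * 3 ^ (c - 1) * c.factorial) := by ring
      _ < (3 * (c + 1)) * (3 * c - 3).factorial := by
          apply Nat.mul_lt_mul_of_pos_left ih
          omega
      _ ≤ ((3 * c - 3 + 2 + 1) * ((3 * c - 3 + 1 + 1) * (3 * c - 3 + 1))) *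
            (3 * c - 3).factorial := Nat.mul_le_mul_right _ h3
      _ = _ := by ring

private lemma fac_main (m c : ℕ) (hm : 7 ≤ m) (hc : 2 ≤ c) (hcm : 3 * c ≤ m) :
    2 * ((m - 3 * c).factorial * 3 ^ c * c.factorial) < (m - 3).factorial * 3 := by
  rcases Nat.lt_or_ge c 3 with h | h
  · obtain rfl : c = 2 := by omega
    obtain ⟨d, rfl⟩ : ∃ d, m = d + 7 := ⟨m - 7, by omega⟩
    have e1 : d + 7 - 3 * 2 = d + 1 := by omega
    have e2 : d + 7 - 3 = (d + 1) + 3 := by omega
    rw [e1, e2, Nat.factorial_succ (d + 1 + 2), Nat.factorial_succ (d + 1 + 1),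
      Nat.factorial_succ (d + 1)]
    have hp : 0 < (d + 1).factorial := Nat.factorial_pos _
    have h4 : 24 ≤ (d + 1 + 2 + 1) * ((d + 1 + 1 + 1) * (d + 1 + 1)) := by
      nlinarith [Nat.zero_le d, Nat.zero_le (d*d), Nat.zero_le (d*d*d)]
    have h5 := Nat.mul_le_mul_right ((d + 1).factorial) h4
    have h6 : (2:ℕ).factorial = 2 := rfl
    rw [h6]
    nlinarith
  · have h1 := fac_big c h
    have h2 : (m - 3 * c).factorial * (3 * c - 3).factorial ≤ (m - 3).factorial := by
      have h3 := Nat.factorial_mul_factorial_dvd_factorial_add (m - 3 * c) (3 * c - 3)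
      have e1 : m - 3 * c + (3 * c - 3) = m - 3 := by omega
      rw [e1] at h3
      exact Nat.le_of_dvd (Nat.factorial_pos _) h3
    have e3 : (3:ℕ) ^ c = 3 ^ (c - 1) * 3 := by
      rw [← pow_succ]
      have : c - 1 + 1 = c := by omega
      rw [this]
    have hp : 0 < (m - 3 * c).factorial := Nat.factorial_pos _
    calc 2 * ((m - 3 * c).factorial * 3 ^ c * c.factorial)
        = ((m - 3 * c).factorial * (2 * 3 ^ (c - 1) * c.factorial)) * 3 := by rw [e3]; ring
      _ < ((m - 3 * c).factorial * (3 * c - 3).factorial) * 3 := by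
          apply Nat.mul_lt_mul_of_pos_right _ (by norm_num)
          exact Nat.mul_lt_mul_of_pos_left h1 hp
      _ ≤ _ := Nat.mul_le_mul_right _ h2

private lemma cent_le {m : ℕ} (h : alternatingGroup (Fin m)) :
    Nat.card (Subgroup.centralizer ({h} : Set (alternatingGroup (Fin m)))) ≤
      Nat.card (Subgroup.centralizer ({(h : Equiv.Perm (Fin m))} : Set (Equiv.Perm (Fin m)))) := by
  let f : Subgroup.centralizer ({h} : Set (alternatingGroup (Fin m))) →
      Subgroup.centralizer ({(h : Equiv.Perm (Fin m))} : Set (Equiv.Perm (Fin m))) :=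
    fun c => ⟨((c : alternatingGroup (Fin m)) : Equiv.Perm (Fin m)), by
      have h1 := c.2
      rw [Subgroup.mem_centralizer_singleton_iff] at h1 ⊢
      exact congrArg Subtype.val h1⟩
  apply Nat.card_le_card_of_injective f
  intro a b hab
  have h2 := congrArg Subtype.val hab
  exact Subtype.ext (Subtype.ext h2)

private lemma cent_ge {m : ℕ} (g : alternatingGroup (Fin m)) :
    Nat.card (Subgroup.centralizer ({(g : Equiv.Perm (Fin m))} : Set (Equiv.Perm (Fin m)))) ≤
      2 * Nat.card (Subgroup.centralizer ({g} : Set (alternatingGroup (Fin m)))) := by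
  set C := Subgroup.centralizer ({(g : Equiv.Perm (Fin m))} : Set (Equiv.Perm (Fin m))) with hC
  let φ : C →* ℤˣ := Equiv.Perm.sign.comp C.subtype
  have h1 : Nat.card φ.ker * φ.ker.index = Nat.card C := Subgroup.card_mul_index φ.ker
  have h2 : φ.ker.index ≤ 2 := by
    rw [Subgroup.index_ker]
    have h3 : Nat.card φ.range ≤ Nat.card ℤˣ := Nat.card_le_card_of_injective _ Subtype.val_injective
    have h4 : Nat.card ℤˣ = 2 := by rw [Nat.card_eq_fintype_card]; rfl
    omega
  have h5 : Nat.card φ.ker ≤ Nat.card (Subgroup.centralizer ({g} : Set (alternatingGroup (Fin m)))) := by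
    let f : φ.ker → Subgroup.centralizer ({g} : Set (alternatingGroup (Fin m))) :=
      fun c => ⟨⟨((c : C) : Equiv.Perm (Fin m)), by
        have h6 := c.2
        rw [MonoidHom.mem_ker] at h6
        exact Equiv.Perm.mem_alternatingGroup.2 h6⟩, by
        have h7 : ((c : C) : Equiv.Perm (Fin m)) ∈ Subgroup.centralizer
          ({(g : Equiv.Perm (Fin m))} : Set (Equiv.Perm (Fin m))) := (c : C).2
        rw [Subgroup.mem_centralizer_singleton_iff] at h7
        rw [Subgroup.mem_centralizer_singleton_iff]
        exact Subtype.ext h7⟩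
    apply Nat.card_le_card_of_injective f
    intro a b hab
    have h2 := congrArg Subtype.val (congrArg Subtype.val hab)
    exact Subtype.ext (Subtype.ext h2)
  calc Nat.card C = Nat.card φ.ker * φ.ker.index := h1.symm
    _ ≤ Nat.card φ.ker * 2 := Nat.mul_le_mul_left _ h2
    _ ≤ _ := by rw [Nat.mul_comm]; exact Nat.mul_le_mul_left _ h5

private lemma cent_eq {G : Type} [Group G] [Finite G] (φ : MulAut G) (g : G) :
    Nat.card (Subgroup.centralizer ({g} : Set G)) ≤
      Nat.card (Subgroup.centralizer ({φ g} : Set G)) := by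
  let f : Subgroup.centralizer ({g} : Set G) → Subgroup.centralizer ({φ g} : Set G) :=
    fun c => ⟨φ c, by
      have h1 := c.2
      rw [Subgroup.mem_centralizer_singleton_iff] at h1 ⊢
      rw [← map_mul, ← map_mul, h1]⟩
  apply Nat.card_le_card_of_injective f
  intro a b hab
  have h2 := congrArg Subtype.val hab
  exact Subtype.ext (φ.injective h2)

theorem pf_A3C : T_A3C := by
  intro m hm φ g hg
  set h := φ g with hh
  have ho : orderOf ((h : alternatingGroup (Fin m)) : Equiv.Perm (Fin m)) = 3 := by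
    rw [Subgroup.orderOf_coe, hh]
    have h1 : orderOf (φ g) = orderOf g := MulEquiv.orderOf_eq φ g
    rw [h1, ← Subgroup.orderOf_coe]
    exact hg.orderOf
  have hp : (orderOf ((h : alternatingGroup (Fin m)) : Equiv.Perm (Fin m))).Prime := by
    rw [ho]; exact Nat.prime_three
  obtain ⟨n, hn⟩ := Equiv.Perm.cycleType_prime_order hp
  rw [ho] at hn
  rcases Nat.eq_zero_or_pos n with rfl | hn0
  · show Equiv.Perm.cycleType _ = {3}
    rw [hn]; rfl
  · exfalso
    have hcm : 3 * (n + 1) ≤ m := by
      have h1 := Equiv.Perm.sum_cycleType_le ((h : alternatingGroup (Fin m)) : Equiv.Perm (Fin m))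
      rw [hn, Multiset.sum_replicate, Fintype.card_fin, smul_eq_mul] at h1
      omega
    have hg' : Equiv.Perm.cycleType (g : Equiv.Perm (Fin m)) = {3} := hg
    have c1 := Equiv.Perm.nat_card_centralizer (g : Equiv.Perm (Fin m))
    have c2 := Equiv.Perm.nat_card_centralizer ((h : alternatingGroup (Fin m)) : Equiv.Perm (Fin m))
    have k1 := cent_ge g
    have k2 := cent_le h
    have k3 := cent_eq φ g
    rw [c1, hg'] at k1
    rw [c2, hn] at k2
    have e1 : (Multiset.replicate (n + 1) 3).toFinset = {3} := by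
      rw [Multiset.toFinset_replicate]
      simp
    rw [e1] at k2
    simp only [Multiset.sum_replicate, Multiset.prod_replicate, Finset.prod_singleton,
      Multiset.count_replicate_self, smul_eq_mul, Fintype.card_fin] at k2
    simp only [Multiset.sum_singleton, Multiset.prod_singleton, Multiset.toFinset_singleton,
      Finset.prod_singleton, Multiset.count_singleton_self, Nat.factorial_one, mul_one,
      Fintype.card_fin] at k1
    have k4 := fac_main m (n + 1) hm (by omega) hcm
    have e2 : (n + 1) * 3 = 3 * (n + 1) := by ring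
    rw [e2] at k2
    rw [← hh] at k3
    have k5 : (m - 3).factorial * 3 ≤ 2 * ((m - 3 * (n + 1)).factorial * 3 ^ (n + 1) *
      (n + 1).factorial) := k1.trans (Nat.mul_le_mul_left 2 (k3.trans k2))
    omega

end FI
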