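import Pool.Agent.H6.FN.TargetsG

namespace FI

theorem pf_NAM : T_NAM := by
  intro e he m hm
  have hm0 : (20000:ℝ) ≤ m := by exact_mod_cast hm
  have hl2 := Real.log_two_gt_d9
  have hl2' := Real.log_two_lt_d9
  have hfac : (0:ℝ) < (m.factorial : ℝ) := by positivity
  have h1 : (m:ℝ) * Real.log m - m ≤ Real.log (m.factorial) := by
    have h := Real.pow_div_factorial_le_exp (m:ℝ) (by positivity) m
    rw [div_le_iff₀ hfac] at h
    have h2 := Real.log_le_log (by positivity) h
    rw [Real.log_pow, Real.log_mul (by positivity) (by positivity), Real.log_exp] at h2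
    linarith
  have h20 : (9.9:ℝ) ≤ Real.log 20000 := by
    have h100 : (100:ℝ) * Real.log 2 ≤ 7 * Real.log 20000 := by
      have h3 := Real.log_le_log (by norm_num) (show (2:ℝ)^100 ≤ 20000^7 by norm_num)
      rw [Real.log_pow, Real.log_pow] at h3
      exact_mod_cast h3
    linarith
  have hlm : (9.9:ℝ) ≤ Real.log m := h20.trans (Real.log_le_log (by norm_num) hm0)
  have hL : 8.9 * (m:ℝ) ≤ Real.log (m.factorial) := by nlinarith
  set L := Real.log (m.factorial) with hLd
  set κ : ℝ := 3 / 2 - 3 / (2 * e) with hκ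
  have hκ1 : (1.0879:ℝ) ≤ κ := by
    have h3 : 3 / (2 * e) ≤ 75 / 182 := by
      rw [div_le_div_iff₀ (by linarith) (by norm_num)]
      linarith
    rw [hκ]
    linarith
  have hF : (0:ℝ) < (m.factorial : ℝ) / 2 := by positivity
  have hlog : Real.log (Real.exp 500 * 2 ^ m * (m.factorial : ℝ)) ≤
      Real.log (((m.factorial : ℝ) / 2) ^ κ) := by
    rw [Real.log_rpow hF, Real.log_div (by positivity) (by norm_num),
      Real.log_mul (by positivity) (by positivity), Real.log_mul (by positivity) (by positivity),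
      Real.log_exp, Real.log_pow, ← hLd]
    have hLpos : 0 ≤ L - Real.log 2 := by linarith
    have h4 : 1.0879 * (L - Real.log 2) ≤ κ * (L - Real.log 2) :=
      mul_le_mul_of_nonneg_right hκ1 hLpos
    nlinarith
  exact (Real.log_le_log_iff (by positivity) (Real.rpow_pos_of_pos hF _)).1 hlog

end FI
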