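import Pool.Agent.H6.FN.TargetsG

open scoped Classical

namespace FI

open MulAction

theorem pf_UD5 (CON : T_CON) : T_UD5 := by
  intro G α _ _ _ hP hnot x z
  have : Fintype α := Fintype.ofFinite α
  have hT : IsPretransitive G α := hP.toIsPretransitive
  set n := Nat.card α with hn
  have hn' : n = Fintype.card α := Nat.card_eq_fintype_card
  -- the orbital
  set D : α → α → Prop := fun u v => ∃ g : G, g • x = u ∧ g • z = v with hD
  have Dinv : ∀ (g : G) (u v : α), D u v → D (g • u) (g • v) := by
    rintro g u v ⟨h, rfl, rfl⟩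
    exact ⟨g * h, by rw [mul_smul], by rw [mul_smul]⟩
  set m := (orbit (stabilizer G x) z).ncard with hm
  have hDx : orbit (stabilizer G x) z = {v | D x v} := by
    ext v
    constructor
    · rintro ⟨g, rfl⟩
      exact ⟨(g : G), g.2, rfl⟩
    · rintro ⟨g, h1, h2⟩
      exact ⟨⟨g, h1⟩, h2⟩
  have hcard : ∀ u : α, (Finset.univ.filter (fun v => D u v)).card = m := by
    intro u
    obtain ⟨g, rfl⟩ := exists_smul_eq G x u
    rw [hm, hDx]
    rw [← Set.ncard_coe_finset]
    have h1 : ((Finset.univ.filter (fun v => D (g • x) v) : Finset α) : Set α) =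
        (fun v => g • v) '' {v | D x v} := by
      ext v
      simp only [Finset.coe_filter, Finset.mem_univ, true_and, Set.mem_ofPred_eq, Set.mem_image]
      constructor
      · intro h
        refine ⟨g⁻¹ • v, ?_, by simp⟩
        have h2 := Dinv g⁻¹ _ _ h
        rwa [inv_smul_smul] at h2
      · rintro ⟨w, hw, rfl⟩
        exact Dinv g _ _ hw
    rw [h1, Set.ncard_image_of_injective _ (MulAction.injective g)]
  have h2t : (∀ {a b c d : α}, a ≠ b → c ≠ d → ∃ g : G, g • a = c ∧ g • b = d) → False := by
    intro h
    apply hnot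
    rw [is_two_pretransitive_iff]
    exact fun h1 h2 => h h1 h2
  -- at least three points
  have hn3 : 3 ≤ n := by
    by_contra hlt
    apply h2t
    intro a b c d hab hcd
    obtain ⟨g, hg⟩ := exists_smul_eq G a c
    refine ⟨g, hg, ?_⟩
    by_contra hne
    have h1 : g • b ≠ c := by
      intro h; rw [← hg] at h; exact hab (MulAction.injective g h).symm
    have h3 : ({c, d, g • b} : Finset α).card = 3 := by
      rw [Finset.card_insert_of_notMem, Finset.card_insert_of_notMem, Finset.card_singleton]
      · simp; exact fun h => hne h.symm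
      · simp; exact ⟨hcd, fun h => h1 h.symm⟩
    have h4 := Finset.card_le_univ ({c, d, g • b} : Finset α)
    omega
  have hmn : m ≤ n := by
    rw [hn', ← hcard x]; exact Finset.card_le_univ _
  rcases Nat.lt_or_ge n (2 * m) with hbig | hsmall
  swap
  · -- 2 m ≤ n
    rcases Nat.lt_or_ge n 4 with h4 | h4
    · have : n = 3 := by omega
      have : 2 ≤ n - m := by omega
      nlinarith
    · have h5 : n ≤ 2 * (n - m) := by omega
      nlinarith
  have hzx : z ≠ x := by
    rintro rfl
    have h1 : m = 1 := by
      rw [← hcard z]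
      rw [Finset.card_eq_one]
      refine ⟨z, ?_⟩
      ext v
      simp only [Finset.mem_filter, Finset.mem_univ, true_and, Finset.mem_singleton]
      constructor
      · rintro ⟨g, h1, h2⟩
        rw [← h2, h1]
      · rintro rfl
        exact ⟨1, one_smul _ _, one_smul _ _⟩
    omega
  have hDne : ∀ u v, D u v → u ≠ v := by
    rintro u v ⟨g, rfl, rfl⟩ h
    exact hzx (MulAction.injective g h).symm
  -- the transposed orbital
  have hcardT : ∀ v : α, (Finset.univ.filter (fun u => D u v)).card = m := by
    have hc : ∀ v : α, (Finset.univ.filter (fun u => D u v)).card =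
        (Finset.univ.filter (fun u => D u x)).card := by
      intro v
      obtain ⟨g, rfl⟩ := exists_smul_eq G x v
      refine Finset.card_bij' (fun u _ => g⁻¹ • u) (fun u _ => g • u) ?_ ?_ ?_ ?_
      · intro u hu
        simp only [Finset.mem_filter, Finset.mem_univ, true_and] at hu ⊢
        have h2 := Dinv g⁻¹ _ _ hu
        rwa [inv_smul_smul] at h2
      · intro u hu
        simp only [Finset.mem_filter, Finset.mem_univ, true_and] at hu ⊢
        exact Dinv g _ _ hu
      · intro u _; simp
      · intro u _; simp
    have hs := Finset.sum_card_bipartiteAbove_eq_sum_card_bipartiteBelow (s := Finset.univ)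
      (t := Finset.univ) (fun u v : α => D u v)
    simp only [Finset.bipartiteAbove, Finset.bipartiteBelow] at hs
    rw [Finset.sum_congr rfl (fun u _ => hcard u), Finset.sum_congr rfl (fun v _ => hc v),
      Finset.sum_const, Finset.sum_const, smul_eq_mul, smul_eq_mul, Finset.card_univ, ← hn'] at hs
    intro v
    rw [hc v]
    exact (Nat.eq_of_mul_eq_mul_left (by omega) hs).symm
  have hsym : ∀ u v, D u v → D v u := by
    have h1 : ∃ v, D x v ∧ D v x := by
      by_contra hno
      push Not at hno
      have h2 : Disjoint (Finset.univ.filter (fun v => D x v))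
          (Finset.univ.filter (fun v => D v x)) := by
        rw [Finset.disjoint_left]
        intro v hv hv'
        simp only [Finset.mem_filter, Finset.mem_univ, true_and] at hv hv'
        exact hno v hv hv'
      have h3 := Finset.card_union_of_disjoint h2
      rw [hcard, hcardT] at h3
      have h4 := Finset.card_le_univ (Finset.univ.filter (fun v => D x v) ∪
          Finset.univ.filter (fun v => D v x))
      omega
    obtain ⟨w, ⟨g1, h1, h2⟩, h3⟩ := h1
    rintro u v ⟨g, rfl, rfl⟩
    have h4 := Dinv (g * g1⁻¹) _ _ h3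
    have e1 : (g * g1⁻¹) • w = g • z := by rw [mul_smul, ← h2, inv_smul_smul]
    have e2 : (g * g1⁻¹) • x = g • x := by
      nth_rewrite 1 [← h1]; rw [mul_smul, inv_smul_smul]
    rwa [e1, e2] at h4
  -- the graph
  let X : SimpleGraph α :=
    { Adj := fun u v => u ≠ v ∧ ¬ D u v
      symm := ⟨fun u v h => ⟨h.1.symm, fun h' => h.2 (hsym _ _ h')⟩⟩
      loopless := ⟨fun u h => h.1 rfl⟩ }
  have hXinv : ∀ (g : G) (u v : α), X.Adj u v → X.Adj (g • u) (g • v) := by
    rintro g u v ⟨h1, h2⟩
    refine ⟨fun h => h1 (MulAction.injective g h), fun h => h2 ?_⟩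
    have h3 := Dinv g⁻¹ _ _ h
    rwa [inv_smul_smul, inv_smul_smul] at h3
  have hedge : ∃ u v, X.Adj u v := by
    by_contra hno
    push Not at hno
    have hall : ∀ u v, u ≠ v → D u v := by
      intro u v h
      by_contra h'
      exact hno u v ⟨h, h'⟩
    apply h2t
    intro a b c d hab hcd
    obtain ⟨g, h1, h2⟩ := hall a b hab
    obtain ⟨g', h3, h4⟩ := hall c d hcd
    refine ⟨g' * g⁻¹, ?_, ?_⟩
    · rw [← h1, mul_smul, inv_smul_smul, h3]
    · rw [← h2, mul_smul, inv_smul_smul, h4]
  obtain ⟨hconn, -⟩ := CON G α hP X hXinv hedge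
  -- a common neighbour
  have hDxz : D x z := ⟨1, one_smul _ _, one_smul _ _⟩
  have hcom : ∃ v w, D x v ∧ X.Adj x w ∧ X.Adj w v := by
    by_contra hno
    push Not at hno
    have hclosed : ∀ u v, (u = x ∨ X.Adj x u) → X.Adj u v → (v = x ∨ X.Adj x v) := by
      intro u v hu huv
      by_contra hv
      push Not at hv
      rcases hu with rfl | hu
      · exact hv.2 huv
      · have : D x v := by
          by_contra h'
          exact hv.2 ⟨hv.1.symm, h'⟩
        exact hno v u this hu huv
    have hwalk : ∀ (u v : α) (p : X.Walk u v), (u = x ∨ X.Adj x u) → (v = x ∨ X.Adj x v) := by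
      intro u v p
      induction p with
      | nil => exact fun h => h
      | cons h p ih => exact fun hu => ih (hclosed _ _ hu h)
    obtain ⟨p⟩ := hconn.preconnected x z
    rcases hwalk x z p (Or.inl rfl) with h | h
    · exact hzx h
    · exact h.2 hDxz
  have hcom' : ∀ v, D x v → ∃ w, X.Adj x w ∧ X.Adj w v := by
    obtain ⟨v0, w0, ⟨g0, h1, h2⟩, h3, h4⟩ := hcom
    rintro v ⟨g, h5, h6⟩
    refine ⟨(g * g0⁻¹) • w0, ?_, ?_⟩
    · have h7 := hXinv (g * g0⁻¹) _ _ h3
      have e1 : (g * g0⁻¹) • x = x := by
        nth_rewrite 1 [← h1]; rw [mul_smul, inv_smul_smul, h5]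
      rwa [e1] at h7
    · have h7 := hXinv (g * g0⁻¹) _ _ h4
      have e1 : (g * g0⁻¹) • v0 = v := by
        rw [← h2, mul_smul, inv_smul_smul, h6]
      rwa [e1] at h7
  -- counting
  set s := n - 1 - m with hs
  have hdeg : ∀ u : α, (Finset.univ.filter (fun v => X.Adj u v)).card = s := by
    intro u
    have h1 : (Finset.univ.filter (fun v => X.Adj u v)) =
        (Finset.univ.erase u) \ (Finset.univ.filter (fun v => D u v)) := by
      ext v
      simp only [Finset.mem_filter, Finset.mem_univ, true_and, Finset.mem_sdiff, Finset.mem_erase,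
        and_true]
      constructor
      · rintro ⟨h1, h2⟩; exact ⟨h1.symm, h2⟩
      · rintro ⟨h1, h2⟩; exact ⟨h1.symm, h2⟩
    rw [h1, Finset.card_sdiff_of_subset, hcard, Finset.card_erase_of_mem (Finset.mem_univ _),
      Finset.card_univ, ← hn']
    intro v hv
    simp only [Finset.mem_filter, Finset.mem_univ, true_and, Finset.mem_erase, and_true] at hv ⊢
    exact (hDne _ _ hv).symm
  have hm1 : m + 1 ≤ n := by
    have h1 : (Finset.univ.filter (fun v => D x v)) ⊆ Finset.univ.erase x := by
      intro v hv
      simp only [Finset.mem_filter, Finset.mem_univ, true_and, Finset.mem_erase, and_true] at hv ⊢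
      exact (hDne _ _ hv).symm
    have h2 := Finset.card_le_card h1
    rw [hcard, Finset.card_erase_of_mem (Finset.mem_univ _), Finset.card_univ, ← hn'] at h2
    omega
  have hms : m ≤ s * s := by
    have h1 : (Finset.univ.filter (fun v => D x v)) ⊆
        (Finset.univ.filter (fun w => X.Adj x w)).biUnion
          (fun w => Finset.univ.filter (fun v => X.Adj w v)) := by
      intro v hv
      simp only [Finset.mem_filter, Finset.mem_univ, true_and] at hv
      obtain ⟨w, h2, h3⟩ := hcom' v hv
      simp only [Finset.mem_biUnion, Finset.mem_filter, Finset.mem_univ, true_and]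
      exact ⟨w, h2, h3⟩
    have h2 := Finset.card_le_card h1
    have h3 := Finset.card_biUnion_le_card_mul (Finset.univ.filter (fun w => X.Adj x w))
      (fun w => Finset.univ.filter (fun v => X.Adj w v)) s (fun w _ => (hdeg w).le)
    rw [hcard] at h2
    rw [hdeg] at h3
    exact h2.trans h3
  have h9 : n - m = s + 1 := by omega
  have h10 : n = s + 1 + m := by omega
  rw [h9]
  nlinarith

end FI
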